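import Pool.Agent.Helper43K9.NH.Base
import Pool.Agent.TH165.ACC.Cara

/-!
# Leaf STEP: combinatorial inversion of adjunction for complete intersections

If the dimensions of the spans of the initial supports do not satisfy the condition of Rado
(Bernstein) at the interior lattice vector `w`, then there is a nonempty set `I` of rays such that
`Λ (w + ∑_I E_i) ≤ Λ (w)`, where `Λ (w) = ψ · w - ∑_j φ_j (w)`.
-/

set_option autoImplicit false
set_option linter.unusedVariables false

namespace Pool.Agent.Helper58K9.CI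

open Pool.Agent.Helper43K9.NH
open Pool.Agent.TH165.ACC (pr Cn pr_add pr_zero pr_neg pr_sub pr_smul pr_smul_right)
open Module

variable {n N r : ℕ}

/-- The real vector of an integer vector. -/
def rv (m : Fin n → ℤ) : Fin n → ℝ := fun i => (m i : ℝ)

/-- The span of the differences of the monomials of least weight of `S j`, `j ∈ J`. -/
def VJ (S : Fin r → Finset (Fin n → ℤ)) (w : Fin n → ℤ) (J : Finset (Fin r)) :
    Submodule ℝ (Fin n → ℝ) :=
  Submodule.span ℝ {x | ∃ j ∈ J, ∃ m ∈ S j, ∃ m' ∈ S j, pr m w = phi (S j) w ∧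
    pr m' w = phi (S j) w ∧ x = rv (m - m')}

/-- The condition of Rado at the weight `w`. -/
def RadoC (S : Fin r → Finset (Fin n → ℤ)) (w : Fin n → ℤ) : Prop :=
  ∀ J : Finset (Fin r), J.card ≤ finrank ℝ (VJ S w J)

/-- The log discrepancy of the ambient pair. -/
noncomputable def Lam (ψ : Fin n → ℝ) (S : Fin r → Finset (Fin n → ℤ)) (w : Fin n → ℤ) : ℝ :=
  dot ψ w - ∑ j, (phi (S j) w : ℝ)

theorem pr_add_right (m u u' : Fin n → ℤ) : pr m (u + u') = pr m u + pr m u' := by
  simp only [pr, Pi.add_apply, mul_add, Finset.sum_add_distrib]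

theorem pr_sum_right {ι : Type} (s : Finset ι) (m : Fin n → ℤ) (u : ι → Fin n → ℤ) :
    pr m (∑ i ∈ s, u i) = ∑ i ∈ s, pr m (u i) := by
  simp only [pr, Finset.sum_apply, Finset.mul_sum]
  rw [Finset.sum_comm]

theorem dot_add (ψ : Fin n → ℝ) (u u' : Fin n → ℤ) : dot ψ (u + u') = dot ψ u + dot ψ u' := by
  simp only [dot, Pi.add_apply, Int.cast_add, mul_add, Finset.sum_add_distrib]

theorem dot_sum {ι : Type} (s : Finset ι) (ψ : Fin n → ℝ) (u : ι → Fin n → ℤ) :
    dot ψ (∑ i ∈ s, u i) = ∑ i ∈ s, dot ψ (u i) := by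
  simp only [dot, Finset.sum_apply, Int.cast_sum, Finset.mul_sum]
  rw [Finset.sum_comm]

theorem inn_add {E : Fin N → Fin n → ℤ} {w : Fin n → ℤ} (hw : Inn E w) (I : Finset (Fin N)) :
    Inn E (w + ∑ i ∈ I, E i) := by
  intro m hm hm0
  rw [pr_add_right, pr_sum_right]
  have := hw m hm hm0
  have h2 : 0 ≤ ∑ i ∈ I, pr m (E i) := Finset.sum_nonneg fun i _ => hm i
  omega

/-- the pairing with a real vector -/
def ev (u : Fin n → ℝ) : (Fin n → ℝ) →ₗ[ℝ] ℝ where
  toFun x := ∑ k, u k * x k
  map_add' x y := by simp [mul_add, Finset.sum_add_distrib]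
  map_smul' a x := by
    simp only [Pi.smul_apply, smul_eq_mul, RingHom.id_apply, Finset.mul_sum]
    exact Finset.sum_congr rfl fun i _ => by ring

theorem ev_rv (u m : Fin n → ℤ) : ev (rv u) (rv m) = (pr m u : ℝ) := by
  simp only [ev, rv, pr, LinearMap.coe_mk, AddHom.coe_mk, Int.cast_sum, Int.cast_mul]
  exact Finset.sum_congr rfl fun i _ => by ring

/-- an interior vector is a nonnegative combination of the rays, with a positive coefficient at
the given ray -/
theorem exists_rel {E : Fin N → Fin n → ℤ} {w : Fin n → ℤ} (hw : Inn E w) (i0 : Fin N) :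
    ∃ (c : Fin N → ℝ) (t : ℝ), (∀ i, 0 ≤ c i) ∧ 0 < c i0 ∧
      ∀ k, ∑ i, c i * (E i k : ℝ) = t * (w k : ℝ) := by
  classical
  let E' : Fin (N + 1) → Fin n → ℤ := Fin.cons (-w) E
  obtain ⟨d, a, c, hc, hsum, -⟩ := Pool.Agent.TH165.ACC.exists_simplex (E := E') (u := -E i0) (by
    intro m hm
    have h0 : 0 ≤ pr m (-w) := hm 0
    have h1 : ∀ i, 0 ≤ pr m (E i) := fun i => hm i.succ
    have h2 : pr m (-w) = -pr m w := by
      have := pr_add_right m w (-w)
      rw [add_neg_cancel] at this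
      have h3 : pr m 0 = 0 := by simp [pr]
      omega
    by_cases hm0 : m = 0
    · rw [hm0, pr_zero]
    · have := hw m h1 hm0
      omega)
  let b : Fin (N + 1) → ℝ := fun i => ∑ l ∈ Finset.univ.filter (fun l => a l = i), c l
  have hb : ∀ i, 0 ≤ b i := fun i => Finset.sum_nonneg fun l _ => (hc l).le
  have hbs : ∀ k, ∑ i, b i * (E' i k : ℝ) = -(E i0 k : ℝ) := by
    intro k
    have h := hsum k
    rw [← Finset.sum_fiberwise Finset.univ a (fun l => c l * (E' (a l) k : ℝ))] at h
    have h3 : ∀ i, ∑ l ∈ Finset.univ.filter (fun l => a l = i), c l * (E' (a l) k : ℝ) =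
        b i * (E' i k : ℝ) := by
      intro i
      rw [Finset.sum_mul]
      refine Finset.sum_congr rfl fun l hl => ?_
      rw [(Finset.mem_filter.1 hl).2]
    rw [Finset.sum_congr rfl fun i _ => h3 i] at h
    rw [h]
    simp
  refine ⟨fun i => b i.succ + if i = i0 then 1 else 0, b 0, fun i => ?_, ?_, fun k => ?_⟩
  · have := hb i.succ
    change 0 ≤ b i.succ + if i = i0 then 1 else 0
    split_ifs <;> linarith
  · have := hb i0.succ
    simp only [if_true]
    linarith
  · have h := hbs k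
    rw [Fin.sum_univ_succ] at h
    have h0 : (E' 0 k : ℝ) = -(w k : ℝ) := by simp [E']
    have h1 : ∀ i : Fin N, (E' i.succ k : ℝ) = (E i k : ℝ) := fun i => by simp [E']
    rw [h0] at h
    simp only [h1] at h
    simp only [add_mul, Finset.sum_add_distrib, ite_mul, one_mul, zero_mul, Finset.sum_ite_eq',
      Finset.mem_univ, if_true]
    linarith

/-- a relation with minimal support among those with nonnegative coefficients and a positive
coefficient at `i0` -/
theorem exists_min {V : Type} [AddCommGroup V] [Module ℝ V] (e : Fin N → V →ₗ[ℝ] ℝ)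
    (i0 : Fin N) (h : ∃ c : Fin N → ℝ, (∀ i, 0 ≤ c i) ∧ 0 < c i0 ∧ ∀ v, ∑ i, c i * e i v = 0) :
    ∃ c : Fin N → ℝ, (∀ i, 0 ≤ c i) ∧ 0 < c i0 ∧ (∀ v, ∑ i, c i * e i v = 0) ∧
      ∀ d : Fin N → ℝ, (∀ i, c i = 0 → d i = 0) → (∀ v, ∑ i, d i * e i v = 0) →
        ∃ t : ℝ, ∀ i, d i = t * c i := by
  classical
  have hex : ∃ k : ℕ, ∃ c : Fin N → ℝ, ((∀ i, 0 ≤ c i) ∧ 0 < c i0 ∧ ∀ v, ∑ i, c i * e i v = 0) ∧
      (Finset.univ.filter fun i => c i ≠ 0).card = k := by
    obtain ⟨c, hc⟩ := h
    exact ⟨_, c, hc, rfl⟩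
  obtain ⟨c, ⟨hc0, hc1, hc2⟩, hk⟩ := Nat.find_spec hex
  have hmin := fun k hk => Nat.find_min hex (m := k) hk
  rw [← hk] at hmin
  refine ⟨c, hc0, hc1, hc2, fun d hd1 hd2 => ?_⟩
  -- the difference
  have main : ∀ f : Fin N → ℝ, (∀ i, c i = 0 → f i = 0) → (∀ v, ∑ i, f i * e i v = 0) →
      f i0 = 0 → ∀ i, f i ≤ 0 := by
    intro f hf1 hf2 hf0
    by_contra hcon
    push Not at hcon
    obtain ⟨i1, hi1⟩ := hcon
    obtain ⟨i2, hi2, hi2min⟩ := Finset.exists_min_image (Finset.univ.filter fun i => 0 < f i)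
      (fun i => c i / f i) ⟨i1, by simp [hi1]⟩
    have hi2' : 0 < f i2 := (Finset.mem_filter.1 hi2).2
    have hc2' : 0 < c i2 := by
      refine lt_of_le_of_ne (hc0 i2) fun h => ?_
      have := hf1 i2 h.symm
      linarith
    set t := c i2 / f i2 with ht
    have htpos : 0 < t := div_pos hc2' hi2'
    refine hmin _ ?_ ⟨fun i => c i - t * f i, ⟨fun i => ?_, ?_, fun v => ?_⟩, rfl⟩
    · refine Finset.card_lt_card ?_
      rw [Finset.ssubset_iff_of_subset]
      · refine ⟨i2, ?_, ?_⟩
        · simp only [Finset.mem_filter, Finset.mem_univ, true_and]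
          exact hc2'.ne'
        · simp only [Finset.mem_filter, Finset.mem_univ, true_and, not_not]
          rw [ht]
          field_simp
          ring
      · intro i hi
        simp only [Finset.mem_filter, Finset.mem_univ, true_and] at hi ⊢
        intro h
        apply hi
        rw [h, hf1 i h]
        ring
    · change 0 ≤ c i - t * f i
      by_cases hfi : 0 < f i
      · have := hi2min i (by simp [hfi])
        change t ≤ _ at this
        rw [le_div_iff₀ hfi] at this
        linarith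
      · have h1 : t * f i ≤ 0 := mul_nonpos_of_nonneg_of_nonpos htpos.le (not_lt.1 hfi)
        have := hc0 i
        linarith
    · change 0 < c i0 - t * f i0
      rw [hf0]
      linarith
    · change ∑ i, (c i - t * f i) * e i v = 0
      have h1 := hc2 v
      have h2 := hf2 v
      have h3 : ∑ i, (c i - t * f i) * e i v = ∑ i, c i * e i v - t * ∑ i, f i * e i v := by
        rw [Finset.mul_sum, ← Finset.sum_sub_distrib]
        exact Finset.sum_congr rfl fun i _ => by ring
      rw [h3, h1, h2]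
      ring
  set s := d i0 / c i0 with hs
  have key : ∀ (ε : ℝ) (i : Fin N), ε * (d i - s * c i) ≤ 0 := by
    intro ε
    refine main (fun i => ε * (d i - s * c i)) (fun i hi => ?_) (fun v => ?_) ?_
    · rw [hi, hd1 i hi]
      ring
    · have h3 : ∑ i, (ε * (d i - s * c i)) * e i v =
          ε * (∑ i, d i * e i v - s * ∑ i, c i * e i v) := by
        rw [Finset.mul_sum, ← Finset.sum_sub_distrib, Finset.mul_sum]
        exact Finset.sum_congr rfl fun i _ => by ring
      rw [h3, hd2 v, hc2 v]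
      ring
    · rw [hs]
      field_simp
      ring
  refine ⟨s, fun i => ?_⟩
  have h1 := key 1 i
  have h2 := key (-1) i
  linarith

/-- the rank of the forms in a relation with minimal support -/
theorem rank_min {V : Type} [AddCommGroup V] [Module ℝ V] [FiniteDimensional ℝ V]
    (e : Fin N → V →ₗ[ℝ] ℝ) (c : Fin N → ℝ) (I : Finset (Fin N)) (hI : ∀ i, i ∈ I ↔ c i ≠ 0)
    (h : ∀ d : Fin N → ℝ, (∀ i, c i = 0 → d i = 0) → (∀ v, ∑ i, d i * e i v = 0) →
        ∃ t : ℝ, ∀ i, d i = t * c i) (K : Submodule ℝ V) (hK : ∀ v ∈ K, ∀ i ∈ I, e i v = 0)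
    (W : Submodule ℝ V) :
    I.card ≤ finrank ℝ V + 1 ∧ finrank ℝ K + I.card ≤ finrank ℝ V + 1 := by
  classical
  -- the map `V → ℝ^I`
  let A : V →ₗ[ℝ] (I → ℝ) := LinearMap.pi fun i => e i.1
  have hker : K ≤ LinearMap.ker A := by
    intro v hv
    rw [LinearMap.mem_ker]
    ext i
    exact hK v hv i.1 i.2
  have hrk := LinearMap.finrank_range_add_finrank_ker A
  -- the relations
  have hdual : finrank ℝ (LinearMap.range A).dualAnnihilator ≤ 1 := by
    -- the relation of a form
    have hrel : ∀ φ ∈ (LinearMap.range A).dualAnnihilator, ∃ t : ℝ,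
        φ = t • (∑ i : I, c i.1 • (LinearMap.proj i : (I → ℝ) →ₗ[ℝ] ℝ)) := by
      intro φ hφ
      rw [Submodule.mem_dualAnnihilator] at hφ
      have hφ' : ∀ x : I → ℝ, φ x = ∑ i : I, φ (Pi.single i 1) * x i := by
        intro x
        conv_lhs => rw [← Finset.univ_sum_single x]
        rw [map_sum]
        refine Finset.sum_congr rfl fun i _ => ?_
        have : (Pi.single i (x i) : I → ℝ) = x i • (Pi.single i 1 : I → ℝ) := by
          rw [← Pi.single_smul, smul_eq_mul, mul_one]
        rw [this, map_smul, smul_eq_mul]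
        ring
      obtain ⟨t, ht⟩ := h (fun i => if hi : i ∈ I then φ (Pi.single ⟨i, hi⟩ 1) else 0)
        (fun i hi => by
          have : i ∉ I := by rw [hI]; simpa using hi
          simp [this])
        (fun v => by
          have h1 := hφ (A v) ⟨v, rfl⟩
          rw [hφ'] at h1
          refine Eq.trans ?_ h1
          rw [← Finset.sum_subset (Finset.subset_univ I)
            (fun i _ hi => by rw [dif_neg hi, zero_mul])]
          rw [← Finset.sum_coe_sort I]
          refine Finset.sum_congr rfl fun i _ => ?_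
          have hi : (i : Fin N) ∈ I := i.2
          simp only [hi, dif_pos]
          rfl)
      refine ⟨t, ?_⟩
      ext i
      have h2 := ht i.1
      have hi : (i : Fin N) ∈ I := i.2
      simp only [hi, dif_pos] at h2
      simp only [LinearMap.coe_comp, LinearMap.coe_single, Function.comp_apply,
        LinearMap.smul_apply, LinearMap.sum_apply, LinearMap.proj_apply, smul_eq_mul]
      rw [h2]
      congr 1
      rw [Finset.sum_eq_single i]
      · simp
      · intro b _ hb
        rw [Pi.single_eq_of_ne hb]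
        simp
      · intro hn
        exact absurd (Finset.mem_univ _) hn
    have hle : (LinearMap.range A).dualAnnihilator ≤
        Submodule.span ℝ {(∑ i : I, c i.1 • (LinearMap.proj i : (I → ℝ) →ₗ[ℝ] ℝ))} := by
      intro φ hφ
      obtain ⟨t, ht⟩ := hrel φ hφ
      rw [ht]
      exact Submodule.smul_mem _ _ (Submodule.mem_span_singleton_self _)
    refine (Submodule.finrank_mono hle).trans ?_
    refine (finrank_span_le_card _).trans ?_
    rw [Set.toFinset_singleton, Finset.card_singleton]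
  have hann := Subspace.finrank_add_finrank_dualAnnihilator_eq (LinearMap.range A)
  rw [Module.finrank_fintype_fun_eq_card, Fintype.card_coe] at hann
  have hkf := Submodule.finrank_mono hker
  constructor <;> omega

/-- **Combinatorial inversion of adjunction.** -/
theorem step (E : Fin N → Fin n → ℤ) (S : Fin r → Finset (Fin n → ℤ))
    (hS : ∀ j, (S j).Nonempty) (hP : ∀ j, ∀ m ∈ S j, ∃ i, phi (S j) (E i) < pr m (E i))
    (ψ : Fin n → ℝ) (hψ : ∀ i, dot ψ (E i) ≤ 1 + ∑ j, (phi (S j) (E i) : ℝ))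
    (w : Fin n → ℤ) (hw : Inn E w) (hR : ¬ RadoC S w) :
    ∃ I : Finset (Fin N), I.Nonempty ∧ Inn E (w + ∑ i ∈ I, E i) ∧
      Lam ψ S (w + ∑ i ∈ I, E i) ≤ Lam ψ S w := by
  classical
  -- the minimal `J`
  obtain ⟨J, hJ, hJmin⟩ : ∃ J : Finset (Fin r), finrank ℝ (VJ S w J) < J.card ∧
      ∀ J' ⊂ J, J'.card ≤ finrank ℝ (VJ S w J') := by
    unfold RadoC at hR
    push Not at hR
    have hex : ∃ k : ℕ, ∃ J : Finset (Fin r), finrank ℝ (VJ S w J) < J.card ∧ J.card = k := by
      obtain ⟨J, hJ⟩ := hR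
      exact ⟨_, J, hJ, rfl⟩
    obtain ⟨J, hJ, hk⟩ := Nat.find_spec hex
    refine ⟨J, hJ, fun J' hJ' => ?_⟩
    by_contra hcon
    push Not at hcon
    have := Nat.find_min hex (m := J'.card) (by
      have := Finset.card_lt_card hJ'
      omega)
    exact this ⟨J', hcon, rfl⟩
  have hJne : J.Nonempty := by
    rw [Finset.nonempty_iff_ne_empty]
    rintro rfl
    simp at hJ
  obtain ⟨j0, hj0⟩ := hJne
  obtain ⟨⟨m0, hm0, hm0w⟩, -⟩ := phi_spec (hS j0) w
  obtain ⟨i0, hi0⟩ := hP j0 m0 hm0
  -- the space `V`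
  let V := VJ S w J
  let e : Fin N → V →ₗ[ℝ] ℝ := fun i => (ev (rv (E i))).comp V.subtype
  have hwV : ∀ v ∈ V, ev (rv w) v = 0 := by
    intro v hv
    have hle : V ≤ LinearMap.ker (ev (rv w)) := by
      refine Submodule.span_le.2 ?_
      rintro x ⟨j, hj, m, hm, m', hm', h1, h2, rfl⟩
      rw [SetLike.mem_coe, LinearMap.mem_ker, ev_rv, pr_sub, h1, h2]
      simp
    exact hle hv
  obtain ⟨c, hc0, hc1, hc2, hc3⟩ := exists_min e i0 (by
    obtain ⟨c, t, h0, h1, h2⟩ := exists_rel hw i0
    refine ⟨c, h0, h1, fun v => ?_⟩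
    have h3 : ∑ i, c i * e i v = t * ev (rv w) v := by
      simp only [e, LinearMap.comp_apply, Submodule.subtype_apply, ev, rv, LinearMap.coe_mk,
        AddHom.coe_mk, Finset.mul_sum]
      rw [Finset.sum_comm]
      refine Finset.sum_congr rfl fun k _ => ?_
      have := h2 k
      calc ∑ i, c i * ((E i k : ℝ) * v.1 k) = (∑ i, c i * (E i k : ℝ)) * v.1 k := by
            rw [Finset.sum_mul]
            exact Finset.sum_congr rfl fun i _ => by ring
        _ = _ := by rw [this]; ring
    rw [h3, hwV v v.2, mul_zero])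
  let I : Finset (Fin N) := Finset.univ.filter fun i => c i ≠ 0
  have hI : ∀ i, i ∈ I ↔ c i ≠ 0 := fun i => by simp [I]
  -- the numbers `λ_j`
  let la : Fin r → (Fin n → ℤ) → ℝ := fun j m => ∑ i, c i * ((pr m (E i) : ℝ) - phi (S j) (E i))
  have hgap : ∀ j, ∀ m ∈ S j, ∀ i, (0 : ℝ) ≤ (pr m (E i) : ℝ) - phi (S j) (E i) := by
    intro j m hm i
    have := (phi_spec (hS j) (E i)).2 m hm
    have h2 : (phi (S j) (E i) : ℝ) ≤ (pr m (E i) : ℝ) := by exact_mod_cast this
    linarith
  have hla0 : ∀ j, ∀ m ∈ S j, 0 ≤ la j m := fun j m hm =>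
    Finset.sum_nonneg fun i _ => mul_nonneg (hc0 i) (hgap j m hm i)
  have hlaeq : ∀ j ∈ J, ∀ m ∈ S j, ∀ m' ∈ S j, pr m w = phi (S j) w → pr m' w = phi (S j) w →
      la j m = la j m' := by
    intro j hj m hm m' hm' h1 h2
    have hv : rv (m - m') ∈ V := Submodule.subset_span ⟨j, hj, m, hm, m', hm', h1, h2, rfl⟩
    have h3 := hc2 ⟨rv (m - m'), hv⟩
    have h4 : ∀ i, e i ⟨rv (m - m'), hv⟩ = (pr m (E i) : ℝ) - pr m' (E i) := by
      intro i
      simp only [e, LinearMap.comp_apply, Submodule.subtype_apply]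
      rw [ev_rv, pr_sub]
      push_cast
      ring
    simp only [h4] at h3
    have h5 : la j m - la j m' = 0 := by
      simp only [la]
      rw [← Finset.sum_sub_distrib, ← h3]
      exact Finset.sum_congr rfl fun i _ => by ring
    linarith
  -- the set `J0`
  let J0 : Finset (Fin r) := J.filter fun j => ∀ m ∈ S j, pr m w = phi (S j) w → la j m = 0
  have hJ0 : J0 ⊂ J := by
    rw [Finset.ssubset_iff_of_subset (Finset.filter_subset _ _)]
    refine ⟨j0, hj0, fun h => ?_⟩
    have h1 := (Finset.mem_filter.1 h).2 m0 hm0 hm0w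
    have h2 : 0 < la j0 m0 := by
      refine Finset.sum_pos' (fun i _ => mul_nonneg (hc0 i) (hgap j0 m0 hm0 i))
        ⟨i0, Finset.mem_univ _, mul_pos hc1 ?_⟩
      have : (phi (S j0) (E i0) : ℝ) < (pr m0 (E i0) : ℝ) := by exact_mod_cast hi0
      linarith
    linarith
  have hzero : ∀ j ∈ J0, ∀ m ∈ S j, pr m w = phi (S j) w → ∀ i ∈ I,
      pr m (E i) = phi (S j) (E i) := by
    intro j hj m hm h1 i hi
    have h2 := (Finset.mem_filter.1 hj).2 m hm h1
    have h3 := (Finset.sum_eq_zero_iff_of_nonneg (fun i _ =>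
      mul_nonneg (hc0 i) (hgap j m hm i))).1 h2 i (Finset.mem_univ _)
    rcases mul_eq_zero.1 h3 with h4 | h4
    · exact absurd h4 ((hI i).1 hi)
    · have : (pr m (E i) : ℝ) = phi (S j) (E i) := by linarith
      exact_mod_cast this
  -- the dimension
  let K : Submodule ℝ V := (VJ S w J0).comap V.subtype
  have hVle : VJ S w J0 ≤ V := by
    refine Submodule.span_mono ?_
    rintro x ⟨j, hj, h⟩
    exact ⟨j, Finset.filter_subset _ _ hj, h⟩
  have hKf : finrank ℝ K = finrank ℝ (VJ S w J0) := by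
    exact (Submodule.comapSubtypeEquivOfLe hVle).finrank_eq
  have hK : ∀ v ∈ K, ∀ i ∈ I, e i v = 0 := by
    intro v hv i hi
    have hle : VJ S w J0 ≤ LinearMap.ker (ev (rv (E i))) := by
      refine Submodule.span_le.2 ?_
      rintro x ⟨j, hj, m, hm, m', hm', h1, h2, rfl⟩
      rw [SetLike.mem_coe, LinearMap.mem_ker, ev_rv, pr_sub, hzero j hj m hm h1 i hi,
        hzero j hj m' hm' h2 i hi]
      simp
    exact hle hv
  obtain ⟨-, hdim⟩ := rank_min e c I hI hc3 K hK ⊤
  rw [hKf] at hdim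
  have hJ0c := hJmin J0 hJ0
  have hcard : I.card ≤ (J \ J0).card := by
    have h1 : (J \ J0).card + J0.card = J.card :=
      Finset.card_sdiff_add_card_eq_card (Finset.filter_subset _ _ : J0 ⊆ J)
    have h2 : finrank ℝ V = finrank ℝ (VJ S w J) := rfl
    omega
  have hIne : I.Nonempty := ⟨i0, (hI i0).2 hc1.ne'⟩
  refine ⟨I, hIne, inn_add hw I, ?_⟩
  -- growth of `φ_j`
  have hphi : ∀ j, (phi (S j) w : ℝ) + ∑ i ∈ I, (phi (S j) (E i) : ℝ) +
      (if j ∈ J \ J0 then 1 else 0) ≤ (phi (S j) (w + ∑ i ∈ I, E i) : ℝ) := by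
    intro j
    obtain ⟨⟨m, hm, hmw⟩, -⟩ := phi_spec (hS j) (w + ∑ i ∈ I, E i)
    rw [← hmw, pr_add_right, pr_sum_right]
    have h1 := (phi_spec (hS j) w).2 m hm
    have h2 : ∑ i ∈ I, phi (S j) (E i) ≤ ∑ i ∈ I, pr m (E i) :=
      Finset.sum_le_sum fun i _ => (phi_spec (hS j) (E i)).2 m hm
    have h3 : phi (S j) w + ∑ i ∈ I, phi (S j) (E i) + (if j ∈ J \ J0 then 1 else 0) ≤
        pr m w + ∑ i ∈ I, pr m (E i) := by
      split_ifs with hj
      · by_cases h4 : pr m w = phi (S j) w
        · obtain ⟨hjJ, hjJ0⟩ := Finset.mem_sdiff.1 hj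
          -- `λ_j > 0`
          have h5 : la j m ≠ 0 := by
            intro h6
            apply hjJ0
            refine Finset.mem_filter.2 ⟨hjJ, fun m' hm' h7 => ?_⟩
            rw [hlaeq j hjJ m' hm' m hm h7 h4, h6]
          have h6 : 0 < la j m := lt_of_le_of_ne (hla0 j m hm) (Ne.symm h5)
          obtain ⟨i, -, hi⟩ := Finset.exists_lt_of_sum_lt (s := Finset.univ) (f := fun _ => (0 : ℝ))
            (g := fun i => c i * ((pr m (E i) : ℝ) - phi (S j) (E i))) (by simpa using h6)
          have hci : c i ≠ 0 := by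
            intro h7
            rw [h7] at hi
            simp at hi
          have h8 : phi (S j) (E i) < pr m (E i) := by
            refine lt_of_le_of_ne ((phi_spec (hS j) (E i)).2 m hm) fun h9 => ?_
            rw [h9] at hi
            simp at hi
          have h9 : ∑ i ∈ I, phi (S j) (E i) < ∑ i ∈ I, pr m (E i) :=
            Finset.sum_lt_sum (fun i _ => (phi_spec (hS j) (E i)).2 m hm)
              ⟨i, (hI i).2 hci, h8⟩
          omega
        · omega
      · omega
    have h4 : ((phi (S j) w + ∑ i ∈ I, phi (S j) (E i) + (if j ∈ J \ J0 then 1 else 0) : ℤ) : ℝ)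
        ≤ ((pr m w + ∑ i ∈ I, pr m (E i) : ℤ) : ℝ) := by exact_mod_cast h3
    push_cast at h4 ⊢
    exact h4
  have hsum := Finset.sum_le_sum fun j (_ : j ∈ Finset.univ) => hphi j
  rw [Finset.sum_add_distrib, Finset.sum_add_distrib] at hsum
  have h1 : ∑ j, (if j ∈ J \ J0 then (1 : ℝ) else 0) = ((J \ J0).card : ℝ) := by
    rw [Finset.sum_ite_mem, Finset.univ_inter]
    simp
  rw [h1, Finset.sum_comm] at hsum
  have h2 : dot ψ (w + ∑ i ∈ I, E i) ≤ dot ψ w + ((I.card : ℝ) +
      ∑ i ∈ I, ∑ j, (phi (S j) (E i) : ℝ)) := by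
    rw [dot_add, dot_sum]
    have h3 : ∑ i ∈ I, dot ψ (E i) ≤ ∑ i ∈ I, (1 + ∑ j, (phi (S j) (E i) : ℝ)) :=
      Finset.sum_le_sum fun i _ => hψ i
    rw [Finset.sum_add_distrib] at h3
    simp only [Finset.sum_const, nsmul_eq_mul, mul_one] at h3
    linarith
  have h3 : (I.card : ℝ) ≤ ((J \ J0).card : ℝ) := by exact_mod_cast hcard
  unfold Lam
  linarith

end Pool.Agent.Helper58K9.CI
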