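import Pool.Agent.Helper58K9.CI.Step
import Pool.Agent.ST53.TaskRado
import Pool.Agent.ST53.TaskTrans

/-!
# Leaf RADO: independent differences of monomials of least weight
-/

set_option autoImplicit false

namespace Pool.Agent.Helper58K9.CI

open Pool.Agent.Helper43K9.NH
open Pool.Agent.TH165.ACC (pr Cn pr_add pr_zero pr_neg pr_sub pr_smul pr_smul_right)
open Module

variable {n N r : ℕ}

theorem rado {S : Fin r → Finset (Fin n → ℤ)} {w : Fin n → ℤ} (h : RadoC S w) :
    ∃ m m' : Fin r → (Fin n → ℤ), (∀ j, m j ∈ S j ∧ pr (m j) w = phi (S j) w) ∧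
      (∀ j, m' j ∈ S j ∧ pr (m' j) w = phi (S j) w) ∧
      LinearIndependent ℝ (fun j => rv (m j - m' j)) := by
  classical
  let A : Fin r → Finset (Fin n → ℝ) := fun j =>
    ((S j).filter fun m => pr m w = phi (S j) w).image rv
  have hW : ∀ J : Finset (Fin r), VJ S w J ≤ Pool.Agent.H53.ST.W A J := by
    intro J
    refine Submodule.span_mono ?_
    rintro x ⟨j, hj, m, hm, m', hm', h1, h2, rfl⟩
    refine ⟨j, hj, rv m, ?_, rv m', ?_, ?_⟩
    · exact Finset.mem_image_of_mem _ (Finset.mem_filter.2 ⟨hm, h1⟩)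
    · exact Finset.mem_image_of_mem _ (Finset.mem_filter.2 ⟨hm', h2⟩)
    · funext i
      simp [rv]
  obtain ⟨a, b, hab, hli⟩ := Pool.Agent.ST53.TaskTrans.main Pool.Agent.ST53.TaskRado.main n
    (Fin r) A Finset.univ fun J _ => (h J).trans (Submodule.finrank_mono (hW J))
  have ha : ∀ j, ∃ m, (m ∈ S j ∧ pr m w = phi (S j) w) ∧ rv m = a j := by
    intro j
    obtain ⟨m, hm, hme⟩ := Finset.mem_image.1 (hab j (Finset.mem_univ _)).1
    exact ⟨m, Finset.mem_filter.1 hm, hme⟩
  have hb : ∀ j, ∃ m, (m ∈ S j ∧ pr m w = phi (S j) w) ∧ rv m = b j := by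
    intro j
    obtain ⟨m, hm, hme⟩ := Finset.mem_image.1 (hab j (Finset.mem_univ _)).2
    exact ⟨m, Finset.mem_filter.1 hm, hme⟩
  choose m hm hma using ha
  choose m' hm' hmb using hb
  refine ⟨m, m', hm, hm', ?_⟩
  have h2 : (fun j => rv (m j - m' j)) = fun j => a j - b j := by
    funext j i
    have h3 := congrFun (hma j) i
    have h4 := congrFun (hmb j) i
    simp only [rv] at h3 h4
    simp only [rv, Pi.sub_apply, Int.cast_sub, h3, h4]
  rw [h2]
  exact hli.comp (fun j : Fin r => (⟨j, Finset.mem_univ j⟩ : (Finset.univ : Finset (Fin r))))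
    (fun i j hij => by simpa using hij)

end Pool.Agent.Helper58K9.CI
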